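import Pool.Agent.Helper70.SUB.SheetW

/-! Project SUBW (helper70): representatives of the values of Laurent polynomials with slow
coefficients (used for the rows NUMW and DRVW). -/

set_option autoImplicit false
set_option linter.unusedSectionVars false

namespace Pool.Agent.Helper53.SUBW

open Filter Finset Pool.Agent.Helper70.SUB Pool.Agent.Helper77.SUBK Pool.Agent.Helper70.SUBL
  Pool.Agent.Helper70.SUBW

section Class

variable {M : Type} (φ : Ultrafilter ℕ)

theorem gm_iff {z z' : ℕ → M} : gm φ z = gm φ z' ↔ ∀ᶠ j in (φ : Filter ℕ), z j = z' j :=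
  Germ.coe_eq

variable [Field M]

theorem gm_prod {ι : Type} (s : Finset ι) (f : ι → ℕ → M) :
    gm φ (fun j => ∏ i ∈ s, f i j) = ∏ i ∈ s, gm φ (f i) := by
  classical
  induction s using Finset.induction_on with
  | empty =>
    simp only [Finset.prod_empty]
    rfl
  | insert a s ha ih =>
    rw [Finset.prod_insert ha, ← ih]
    simp only [Finset.prod_insert ha]
    rfl

theorem gm_sum {ι : Type} (s : Finset ι) (f : ι → ℕ → M) :
    gm φ (fun j => ∑ i ∈ s, f i j) = ∑ i ∈ s, gm φ (f i) := by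
  classical
  induction s using Finset.induction_on with
  | empty =>
    simp only [Finset.sum_empty]
    rfl
  | insert a s ha ih =>
    rw [Finset.sum_insert ha, ← ih]
    simp only [Finset.sum_insert ha]
    rfl

theorem gm_zpow (z : ℕ → M) (k : ℤ) : gm φ (fun j => z j ^ k) = gm φ z ^ k := by
  cases k with
  | ofNat k =>
    simp only [Int.ofNat_eq_natCast, zpow_natCast]
    rfl
  | negSucc k =>
    simp only [zpow_negSucc]
    rfl

theorem gm_monM {r : ℕ} (w : Fin r → ℕ → M) (m : Fin r → ℤ) :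
    gm φ (fun j => monM (fun k => w k j) m) = monM (fun k => gm φ (w k)) m := by
  unfold monM
  rw [gm_prod]
  exact Finset.prod_congr rfl fun k _ => gm_zpow φ (w k) (m k)

end Class

section Slow

variable {M : Type} [Field M] [NumberField M] {S : Finset ℕ} {P : PF S M}
  {φ : Ultrafilter ℕ} {X : ℕ → ℝ} {r : ℕ}

/-- representatives of the coefficients -/
theorem rep (w : Fin r → ℕ → M) (F : LauM (UP M φ) r) (hF : SlL P φ X F) :
    ∃ c : (Fin r → ℤ) → ℕ → M, (∀ m, Slw P φ X (c m)) ∧ (∀ m, gm φ (c m) = F.coeff m) ∧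
      evW w F = gm φ (fun j => ∑ m ∈ Finsupp.support F.coeff,
        c m j * monM (fun k => w k j) m) := by
  choose c hc hc' using hF
  refine ⟨c, hc, hc', ?_⟩
  rw [gm_sum]
  unfold evW evM
  refine Finset.sum_congr rfl fun m _ => ?_
  rw [← hc' m, ← gm_monM]
  rfl

/-- the monomials do not vanish -/
theorem monM_ne {w : Fin r → M} (hw : ∀ k, w k ≠ 0) (m : Fin r → ℤ) : monM w m ≠ 0 :=
  Finset.prod_ne_zero_iff.2 fun k _ => zpow_ne_zero _ (hw k)

/-- moderate sequences are a.e. `S`-units, all at the same time -/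
theorem mu_all {w : Fin r → ℕ → M} (hw : ∀ k, MU P φ X (w k)) :
    ∀ᶠ j in (φ : Filter ℕ), ∀ k, SV S (w k j) :=
  eventually_all.2 fun k => (hw k).1

theorem tend_ge (hX : Tendsto X (φ : Filter ℕ) atTop) (C : ℝ) :
    ∀ᶠ j in (φ : Filter ℕ), C ≤ X j := hX.eventually_ge_atTop C

/-- constants are smaller than powers of `X` -/
theorem const_le (hX : Tendsto X (φ : Filter ℕ) atTop) (C : ℝ) {ε : ℝ} (hε : 0 < ε) :
    ∀ᶠ j in (φ : Filter ℕ), C ≤ X j ^ ε :=
  ((tendsto_rpow_atTop hε).comp hX).eventually_ge_atTop C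

end Slow

end Pool.Agent.Helper53.SUBW
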