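import Pool.Agent.Helper53.SUBW.Rep

/-! Project SUBW (helper70), row DRVW: the derivative is not larger than the Laurent
polynomial. -/

set_option autoImplicit false

namespace Pool.Agent.Helper53.SUBW

open Filter Finset Pool.Agent.Helper70.SUB Pool.Agent.Helper77.SUBK Pool.Agent.Helper70.SUBL
  Pool.Agent.Helper70.SUBW

/-- the value of the derivative -/
theorem evM_drM {K : Type} [Field K] (hL : ST_LAUBM) {r : ℕ} {w : Fin r → K}
    (hw : ∀ k, w k ≠ 0) (δ : Fin r → ℤ) (F : LauM K r) :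
    evM w (drM δ F) = ∑ m ∈ Finsupp.support F.coeff,
      ((∑ k, δ k * m k : ℤ) : K) * F.coeff m * monM w m := by
  obtain ⟨-, hsingle, hadd, -, -⟩ := (hL K r).1 w hw
  have h0 : evM w (0 : LauM K r) = 0 := by
    have h := hadd 0 0
    rw [add_zero] at h
    exact left_eq_add.1 h
  have hsum : ∀ (s : Finset (Fin r → ℤ)) (f : (Fin r → ℤ) → LauM K r),
      evM w (∑ m ∈ s, f m) = ∑ m ∈ s, evM w (f m) := by
    intro s f
    classical
    induction s using Finset.induction_on with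
    | empty => rw [Finset.sum_empty, Finset.sum_empty, h0]
    | insert a s ha ih => rw [Finset.sum_insert ha, Finset.sum_insert ha, hadd, ih]
  unfold drM
  rw [hsum]
  exact Finset.sum_congr rfl fun m _ => hsingle m _

/-- DRVW: the derivative is not larger than the Laurent polynomial. -/
theorem DRVW (hL : ST_LAUBM) (hSLW : ST_SLW) (hLAUW : ST_LAUW) : ST_DRVW := by
  intro M _ _ _ S P φ X r w F f f' δ v σ a hS hX hw hI hF hf hf' hv hfa ε hε
  obtain ⟨c, hc, hcF, -⟩ := rep w F hF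
  have hw0 : ∀ k, gm φ (w k) ≠ 0 := by
    intro k h0
    have h1 : gm φ (w k) = gm φ (fun _ => (0 : M)) := h0
    rw [gm_iff] at h1
    obtain ⟨j, hj1, hj2⟩ := (h1.and (hw k).1).exists
    exact hj2.1 hj1
  have hev : evW w (drM δ F) = gm φ (fun j => ∑ m ∈ Finsupp.support F.coeff,
      ((∑ k, δ k * m k : ℤ) : M) * c m j * monM (fun k => w k j) m) := by
    unfold evW
    rw [evM_drM hL hw0, gm_sum]
    refine Finset.sum_congr rfl fun m _ => ?_
    rw [← hcF m, ← gm_monM]
    rfl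
  rw [hev, gm_iff] at hf'
  obtain ⟨-, -, -, -, h5, -⟩ := hSLW M S P φ X hS hX
  have hε4 : 0 < ε / 4 := by positivity
  set K : ℝ := ∑ m ∈ Finsupp.support F.coeff, P.nv v ((∑ k, δ k * m k : ℤ) : M) with hK
  have e1 : ∀ᶠ j in (φ : Filter ℕ), ∀ m ∈ Finsupp.support F.coeff,
      P.nv v (σ (c m j)) ≤ X j ^ (ε / 4) :=
    (Filter.eventually_all_finset _).2 fun m _ => h5 (c m) (hc m) v hv σ _ hε4
  have e2 : ∀ᶠ j in (φ : Filter ℕ), ∀ m ∈ Finsupp.support F.coeff,
      P.nv v (σ (monM (fun k => w k j) m)) * X j ^ (-(ε / 4)) ≤ P.nv v (σ (f j)) :=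
    (Filter.eventually_all_finset _).2 fun m hm =>
      hLAUW M S P φ X r w F f v σ (ε / 4) hS hX hw hI hF hf hv hε4 m hm
  filter_upwards [hf', e1, e2, hfa (ε / 4) hε4, tend_ge hX 1, const_le hX K hε4] with j h1 h2 h3
    h4 h6 h7
  have hX0 : 0 < X j := by linarith
  have hterm : ∀ m ∈ Finsupp.support F.coeff,
      P.nv v (σ (((∑ k, δ k * m k : ℤ) : M) * c m j * monM (fun k => w k j) m)) ≤
        P.nv v ((∑ k, δ k * m k : ℤ) : M) * X j ^ (a + 3 * (ε / 4)) := by
    intro m hm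
    rw [map_mul, map_mul, map_intCast, P.mul v hv, P.mul v hv, mul_assoc]
    refine mul_le_mul_of_nonneg_left ?_ (P.nn _ _)
    have h8 : P.nv v (σ (monM (fun k => w k j) m)) ≤ X j ^ (a + 2 * (ε / 4)) := by
      have h9 : P.nv v (σ (monM (fun k => w k j) m)) =
          P.nv v (σ (monM (fun k => w k j) m)) * X j ^ (-(ε / 4)) * X j ^ (ε / 4) := by
        rw [mul_assoc, ← Real.rpow_add hX0, neg_add_cancel, Real.rpow_zero, mul_one]
      rw [h9]
      calc P.nv v (σ (monM (fun k => w k j) m)) * X j ^ (-(ε / 4)) * X j ^ (ε / 4)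
          ≤ X j ^ (a + ε / 4) * X j ^ (ε / 4) :=
            mul_le_mul_of_nonneg_right ((h3 m hm).trans h4) (Real.rpow_nonneg hX0.le _)
        _ = X j ^ (a + 2 * (ε / 4)) := by
            rw [← Real.rpow_add hX0]
            congr 1
            ring
    calc P.nv v (σ (c m j)) * P.nv v (σ (monM (fun k => w k j) m))
        ≤ X j ^ (ε / 4) * X j ^ (a + 2 * (ε / 4)) :=
          mul_le_mul (h2 m hm) h8 (P.nn _ _) (Real.rpow_nonneg hX0.le _)
      _ = X j ^ (a + 3 * (ε / 4)) := by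
          rw [← Real.rpow_add hX0]
          congr 1
          ring
  rw [h1, map_sum]
  calc P.nv v (∑ m ∈ Finsupp.support F.coeff,
        σ (((∑ k, δ k * m k : ℤ) : M) * c m j * monM (fun k => w k j) m))
      ≤ ∑ m ∈ Finsupp.support F.coeff,
        P.nv v (σ (((∑ k, δ k * m k : ℤ) : M) * c m j * monM (fun k => w k j) m)) :=
        P.sum_le hv _ _
    _ ≤ ∑ m ∈ Finsupp.support F.coeff,
        P.nv v ((∑ k, δ k * m k : ℤ) : M) * X j ^ (a + 3 * (ε / 4)) := Finset.sum_le_sum hterm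
    _ = K * X j ^ (a + 3 * (ε / 4)) := by rw [← Finset.sum_mul]
    _ ≤ X j ^ (ε / 4) * X j ^ (a + 3 * (ε / 4)) :=
        mul_le_mul_of_nonneg_right h7 (Real.rpow_nonneg hX0.le _)
    _ = X j ^ (a + ε) := by
        rw [← Real.rpow_add hX0]
        congr 1
        ring

end Pool.Agent.Helper53.SUBW
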