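import Pool.Agent.Helper53.SUBW.Rep
import Pool.Agent.Helper47.SUBW.SLL

/-! Project SUBW (helper70), row MAINW: from sums of S-units with slow coefficients to Laurent
polynomials with slow coefficients. -/

set_option autoImplicit false

namespace Pool.Agent.Helper53.SUBW

open Filter Finset Pool.Agent.Helper70.SUB Pool.Agent.Helper77.SUBK Pool.Agent.Helper70.SUBL
  Pool.Agent.Helper70.SUBW

/-- a sum of moderate S-units with slow coefficients is the value of a Laurent polynomial with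
slow coefficients, if the S-units are monomials -/
theorem lau_of {M : Type} [Field M] [NumberField M] [IsGalois ℚ M] {S : Finset ℕ} {P : PF S M}
    {φ : Ultrafilter ℕ} {X : ℕ → ℝ} (hSLW : ST_SLW) (hL : ST_LAUBM) (hS : ∀ p ∈ S, p.Prime)
    (hX : Tendsto X (φ : Filter ℕ) atTop) {r t : ℕ} (w : Fin r → ℕ → M)
    (hw : ∀ k, MU P φ X (w k)) (c u s : Fin t → ℕ → M) (m : Fin t → Fin r → ℤ)
    (hc : ∀ i, Slw P φ X (c i)) (hs : ∀ i, Slw P φ X (s i))
    (hu : ∀ i, ∀ᶠ j in (φ : Filter ℕ), u i j = s i j * monM (fun k => w k j) (m i))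
    (z : ℕ → M) (hz : ∀ᶠ j in (φ : Filter ℕ), ∑ i, c i j * u i j = z j) :
    ∃ F : LauM (UP M φ) r, SlL P φ X F ∧ gm φ z = evW w F := by
  have hw0 : ∀ k, gm φ (w k) ≠ 0 := by
    intro k h0
    have h1 : gm φ (w k) = gm φ (fun _ => (0 : M)) := h0
    rw [gm_iff] at h1
    obtain ⟨j, hj1, hj2⟩ := (h1.and (hw k).1).exists
    exact hj2.1 hj1
  obtain ⟨-, hsingle, hadd, -, -⟩ := (hL (UP M φ) r).1 (fun k => gm φ (w k)) hw0
  have h0 : evW w (0 : LauM (UP M φ) r) = 0 := by
    have h := hadd 0 0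
    rw [add_zero] at h
    exact left_eq_add.1 h
  have hsum : ∀ (q : Finset (Fin t)) (f : Fin t → LauM (UP M φ) r),
      evW w (∑ i ∈ q, f i) = ∑ i ∈ q, evW w (f i) := by
    intro q f
    induction q using Finset.induction_on with
    | empty => rw [Finset.sum_empty, Finset.sum_empty, h0]
    | insert a q ha ih =>
      rw [Finset.sum_insert ha, Finset.sum_insert ha, ← ih]
      exact hadd _ _
  refine ⟨∑ i, AddMonoidAlgebra.single (m i) (gm φ (fun j => c i j * s i j)), ?_, ?_⟩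
  · refine Pool.Agent.Helper47.SUBW.slL_sum hSLW hS hX _ _ fun i _ => ?_
    refine Pool.Agent.Helper47.SUBW.slL_single hSLW hS hX _ ?_
    exact ⟨_, ((hSLW M S P φ X hS hX).2.1 (c i) (s i) (hc i) (hs i)).2, rfl⟩
  · rw [hsum]
    have h1 : ∀ i : Fin t, evW w (AddMonoidAlgebra.single (m i) (gm φ (fun j => c i j * s i j))) =
        gm φ (fun j => c i j * s i j * monM (fun k => w k j) (m i)) := by
      intro i
      have h2 := hsingle (m i) (gm φ (fun j => c i j * s i j))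
      unfold evW
      rw [h2, ← gm_monM]
      rfl
    rw [Finset.sum_congr rfl fun i _ => h1 i, ← gm_sum, gm_iff]
    filter_upwards [hz, eventually_all.2 hu] with j h3 h4
    rw [← h3]
    refine Finset.sum_congr rfl fun i _ => ?_
    rw [h4 i, mul_assoc]

/-- MAINW. -/
theorem MAINW (hSLW : ST_SLW) (hL : ST_LAUBM) (hHBW : ST_HBW) (hMONW : ST_MONW)
    (hCOREW : ST_COREW) : ST_MAINW := by
  intro M _ _ _ S P φ x y ε hS hε hX hx hy hd
  have hy2 : ∀ᶠ j in (φ : Filter ℕ), |(y j : ℝ)| ≤ |(x j : ℝ)| ^ (2 : ℝ) := by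
    filter_upwards [hd, tend_ge hX 2] with j h1 h2
    set X : ℝ := |(x j : ℝ)| with hXdef
    have h3 : |((y j ^ 2 - x j ^ 3 : ℤ) : ℝ)| ≤ X := by
      refine h1.2.trans ?_
      have h4 : X ^ (1 / (2 + ε)) ≤ X ^ (1 : ℝ) := by
        refine Real.rpow_le_rpow_of_exponent_le (by linarith) ?_
        rw [div_le_one (by linarith)]
        linarith
      rwa [Real.rpow_one] at h4
    push_cast at h3
    have h5 : (y j : ℝ) ^ 2 ≤ X ^ 3 + X := by
      have h6 : (y j : ℝ) ^ 2 - (x j : ℝ) ^ 3 ≤ X := (abs_le.1 h3).2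
      have h7 : (x j : ℝ) ^ 3 ≤ X ^ 3 := by
        rw [hXdef, ← abs_pow]
        exact le_abs_self _
      linarith
    have h8 : (y j : ℝ) ^ 2 ≤ (X ^ 2) ^ 2 := by
      have h9 : X ^ 3 + X ≤ X ^ 4 := by
        have h10 : 2 * X ^ 3 ≤ X * X ^ 3 := mul_le_mul_of_nonneg_right h2 (by positivity)
        have h11 : X ≤ X ^ 3 := by
          have h12 : (1 : ℝ) ≤ X ^ 2 := by nlinarith
          nlinarith
        nlinarith
      nlinarith
    have h13 := abs_le_of_sq_le_sq h8 (by positivity)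
    rw [Real.rpow_two]
    exact h13
  have hx1 : SpM P φ (fun j => |(x j : ℝ)|) (fun j => (x j : M)) := by
    refine hHBW M S P φ _ x 1 hS hX hx (Eventually.of_forall fun j => ?_)
    rw [Real.rpow_one]
  have hy1 : SpM P φ (fun j => |(x j : ℝ)|) (fun j => (y j : M)) :=
    hHBW M S P φ _ y 2 hS hX hy hy2
  obtain ⟨t, c, u, hc, hu, hxs⟩ := hx1
  obtain ⟨t', c', u', hc', hu', hys⟩ := hy1
  obtain ⟨r, w, m, s, hw, hI, hs, hus⟩ := hMONW M S P φ (fun j => |(x j : ℝ)|)
    (Fin t ⊕ Fin t') (Sum.elim u u') hS hX (by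
      rintro (i | i)
      · exact hu i
      · exact hu' i)
  obtain ⟨F, hF, hFx⟩ := lau_of hSLW hL hS hX w hw c u (fun i => s (Sum.inl i))
    (fun i => m (Sum.inl i)) hc (fun i => hs (Sum.inl i)) (fun i => hus (Sum.inl i)) _ hxs
  obtain ⟨G, hG, hGy⟩ := lau_of hSLW hL hS hX w hw c' u' (fun i => s (Sum.inr i))
    (fun i => m (Sum.inr i)) hc' (fun i => hs (Sum.inr i)) (fun i => hus (Sum.inr i)) _ hys
  exact hCOREW M S P φ r w F G x y ε hS hε hX hw hI hF hG hFx hGy hd

end Pool.Agent.Helper53.SUBW
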