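import Pool.Agent.Helper53.SUBW.Rep

/-! Project SUBW (helper70), row NUMW: product formula for nonzero values of Laurent polynomials
with slow coefficients. -/

set_option autoImplicit false

namespace Pool.Agent.Helper53.SUBW

open Filter Finset Pool.Agent.Helper70.SUB Pool.Agent.Helper77.SUBK Pool.Agent.Helper70.SUBL
  Pool.Agent.Helper70.SUBW

theorem SI_sum {M : Type} [Field M] [NumberField M] (hSVB : ST_SVB) {S : Finset ℕ} {ι : Type}
    (s : Finset ι) (f : ι → M) (h : ∀ i ∈ s, SI S (f i)) : SI S (∑ i ∈ s, f i) := by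
  classical
  induction s using Finset.induction_on with
  | empty =>
    rw [Finset.sum_empty]
    exact (hSVB M).1 S 0 isIntegral_zero
  | insert a s ha ih =>
    rw [Finset.sum_insert ha]
    exact ((hSVB M).2.1 S _ _ (h a (Finset.mem_insert_self a s))
      (ih fun i hi => h i (Finset.mem_insert_of_mem hi))).1

theorem SV_monM {M : Type} [Field M] [NumberField M] (hSVB : ST_SVB) {S : Finset ℕ} {r : ℕ}
    {w : Fin r → M} (hw : ∀ k, SV S (w k)) (m : Fin r → ℤ) : SV S (monM w m) := by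
  unfold monM
  obtain ⟨-, -, -, -, -, -, -, h8, h9, -⟩ := hSVB M
  exact h9 S (Fin r) Finset.univ _ fun k _ => h8 S (w k) (m k) (hw k)

/-- NUMW: product formula. -/
theorem NUMW (hAV : ST_AV) (hSVB : ST_SVB) (hPRK : ST_PRK) (hSLW : ST_SLW) : ST_NUMW := by
  intro M _ _ _ S P φ X r w F f ε hS hX hw hF hf hf0 hε
  obtain ⟨c, hc, -, hrep⟩ := rep w F hF
  rw [hrep, gm_iff] at hf
  obtain ⟨-, -, -, -, -, -, -, -, -, -, -, h12, -⟩ := hSLW M S P φ X hS hX
  set G : ℕ := Fintype.card (M ≃ₐ[ℚ] M) with hG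
  have hG0 : (0 : ℝ) ≤ G := Nat.cast_nonneg _
  have hε' : 0 < ε / (G + 1) := by positivity
  have hD := h12 (Fin r → ℤ) (Finsupp.support F.coeff) c (fun m _ => hc m) _ hε'
  filter_upwards [hf, hf0, hD, mu_all hw, tend_ge hX 1] with j h1 h2 h3 h4 h5
  obtain ⟨D, hD0, hDX, hDi⟩ := h3
  have hDM : (D : M) ≠ 0 := Nat.cast_ne_zero.2 hD0
  have hSI : SI S ((D : M) * f j) := by
    rw [h1, Finset.mul_sum]
    refine SI_sum hSVB _ _ fun m hm => ?_
    rw [← mul_assoc]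
    exact ((hSVB M).2.1 S _ _ ((hSVB M).1 S _ (hDi m hm)) (SV_monM hSVB h4 m).2.1).2
  have hprod := (hPRK M S P hS).1 ((D : M) * f j) (mul_ne_zero hDM h2) hSI
  have hsplit : ∏ v ∈ plc S, ∏ σ : M ≃ₐ[ℚ] M, P.nv v (σ ((D : M) * f j)) =
      (∏ v ∈ plc S, ∏ _σ : M ≃ₐ[ℚ] M, P.nv v (D : M)) *
        ∏ v ∈ plc S, ∏ σ : M ≃ₐ[ℚ] M, P.nv v (σ (f j)) := by
    rw [← Finset.prod_mul_distrib]
    refine Finset.prod_congr rfl fun v hv => ?_
    rw [← Finset.prod_mul_distrib]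
    refine Finset.prod_congr rfl fun σ _ => ?_
    rw [map_mul, map_natCast, P.mul v hv]
  have hDp : ∏ v ∈ plc S, ∏ _σ : M ≃ₐ[ℚ] M, P.nv v (D : M) ≤ (D : ℝ) ^ G := by
    have h6 : ∀ v ∈ plc S, ∏ _σ : M ≃ₐ[ℚ] M, P.nv v (D : M) = P.nv v (D : M) ^ G := by
      intro v _
      rw [Finset.prod_const, Finset.card_univ]
    rw [Finset.prod_congr rfl h6]
    unfold plc
    rw [Finset.prod_insertNone]
    have h7 : P.nv none (D : M) = D := by
      rw [P.natCast mem_none]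
      show |((D : ℚ) : ℝ)| = (D : ℝ)
      rw [Rat.cast_natCast, abs_of_nonneg (Nat.cast_nonneg _)]
    rw [h7]
    have h8 : ∏ p ∈ S, P.nv (some p) (D : M) ^ G ≤ 1 := by
      refine Finset.prod_le_one (fun p _ => pow_nonneg (P.nn _ _) _) fun p hp => ?_
      refine pow_le_one₀ (P.nn _ _) ?_
      have := P.int_le hAV hS hp (D : ℤ)
      rwa [Int.cast_natCast] at this
    calc (D : ℝ) ^ G * ∏ p ∈ S, P.nv (some p) (D : M) ^ G ≤ (D : ℝ) ^ G * 1 :=
          mul_le_mul_of_nonneg_left h8 (by positivity)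
      _ = (D : ℝ) ^ G := mul_one _
  have hX0 : 0 < X j := by linarith
  have hDG : (D : ℝ) ^ G ≤ X j ^ ε := by
    calc (D : ℝ) ^ G ≤ (X j ^ (ε / (G + 1))) ^ G :=
          pow_le_pow_left₀ (Nat.cast_nonneg _) hDX G
      _ = X j ^ (ε / (G + 1) * G) := by rw [Real.rpow_mul hX0.le, Real.rpow_natCast]
      _ ≤ X j ^ ε := by
          refine Real.rpow_le_rpow_of_exponent_le h5 ?_
          rw [div_mul_eq_mul_div, div_le_iff₀ (by positivity)]
          nlinarith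
  rw [hsplit] at hprod
  set Q := ∏ v ∈ plc S, ∏ σ : M ≃ₐ[ℚ] M, P.nv v (σ (f j)) with hQ
  have hQ0 : 0 ≤ Q := Finset.prod_nonneg fun v _ => Finset.prod_nonneg fun σ _ => P.nn _ _
  have h9 : 1 ≤ X j ^ ε * Q := by
    refine hprod.trans (mul_le_mul_of_nonneg_right (hDp.trans hDG) hQ0)
  rw [Real.rpow_neg hX0.le]
  have h10 : 0 < X j ^ ε := Real.rpow_pos_of_pos hX0 _
  rw [inv_le_iff_one_le_mul₀ h10]
  linarith [mul_comm (X j ^ ε) Q]

end Pool.Agent.Helper53.SUBW
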